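import Pool.Agent.Helper15.GS.GoalsD
import Pool.Agent.Helper75.HS.CONCb

/-! # GS, GCON: the sequences -/

open Complex Metric Set Filter Topology MeasureTheory
open scoped ContDiff ComplexConjugate ComplexOrder Manifold Matrix

namespace Pool.Agent.Helper64.GS

open Pool.Agent.Helper95.Lin Pool.Agent.Helper16.Abund Pool.Agent.Helper92.Orb
  Pool.Agent.Helper10.SP Pool.Agent.Helper95.RK Pool.Agent.Helper57.HS
  Pool.Agent.Helper15.HS Pool.Agent.Helper75.HS Pool.Agent.Helper15.GS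

universe u

open scoped MatrixOrder in
theorem trPP {n : ℕ} {A B : Matrix (Fin n) (Fin n) ℂ} (hA : A.PosSemidef) (hB : B.PosSemidef) :
    0 ≤ (Matrix.trace (A * B)).re := by
  obtain ⟨S, rfl⟩ := CStarAlgebra.nonneg_iff_eq_star_mul_self.1 hB.nonneg
  have h1 : Matrix.trace (A * (star S * S)) = Matrix.trace (S * A * Sᴴ) := by
    rw [← Matrix.mul_assoc, Matrix.trace_mul_comm, Matrix.star_eq_conjTranspose, Matrix.mul_assoc]
  rw [h1]
  exact (Complex.nonneg_iff.1 (hA.mul_mul_conjTranspose_same S).trace_nonneg).1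

theorem detU {n : ℕ} {A : Matrix (Fin n) (Fin n) ℂ} (hA : A.PosDef) : IsUnit A.det := by
  rw [isUnit_iff_ne_zero]
  exact hA.det_pos.ne'

theorem smulR {n : ℕ} {A : Matrix (Fin n) (Fin n) ℂ} (hA : A.PosSemidef) {r : ℝ} (hr : 0 ≤ r) :
    ((r : ℂ) • A).PosSemidef := hA.smul (by exact_mod_cast hr)

theorem invLe {n : ℕ} {Q h : Matrix (Fin n) (Fin n) ℂ} (hQ : Q.PosDef) (hh : h.PosDef) {τ : ℝ}
    (hτ : 0 < τ) : (Q⁻¹ - (Q + (τ : ℂ) • h)⁻¹).PosSemidef := by
  have hm : (Q + (τ : ℂ) • h).PosDef := hQ.add_posSemidef (smulR hh.posSemidef hτ.le)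
  set m := Q + (τ : ℂ) • h with hmd
  have q1 : Q * Q⁻¹ = 1 := Matrix.mul_nonsing_inv Q (detU hQ)
  have q2 : Q⁻¹ * Q = 1 := Matrix.nonsing_inv_mul Q (detU hQ)
  have m1 : m * m⁻¹ = 1 := Matrix.mul_nonsing_inv m (detU hm)
  have m2 : m⁻¹ * m = 1 := Matrix.nonsing_inv_mul m (detU hm)
  have k1 : (Q * Q⁻¹ * Q).PosSemidef := by rw [q1, one_mul]; exact hQ.posSemidef
  have hX : ((τ : ℂ) • h + ((τ ^ 2 : ℝ) : ℂ) • (h * Q⁻¹ * h)).PosSemidef := by
    refine (smulR hh.posSemidef hτ.le).add (smulR ?_ (by positivity))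
    have := hQ.inv.posSemidef.mul_mul_conjTranspose_same h
    rwa [hh.isHermitian.eq] at this
  have hY := hX.mul_mul_conjTranspose_same m⁻¹
  rw [hm.inv.isHermitian.eq] at hY
  have e1 : (τ : ℂ) • h + ((τ ^ 2 : ℝ) : ℂ) • (h * Q⁻¹ * h) = m * Q⁻¹ * m - m := by
    have e2 : (τ : ℂ) • h = m - Q := by rw [hmd]; abel
    have e3 : ((τ ^ 2 : ℝ) : ℂ) • (h * Q⁻¹ * h) = ((τ : ℂ) • h) * Q⁻¹ * ((τ : ℂ) • h) := by
      rw [Matrix.smul_mul, Matrix.smul_mul, Matrix.mul_smul, smul_smul]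
      push_cast
      rw [pow_two]
    rw [e3, e2, Matrix.sub_mul, Matrix.sub_mul, Matrix.mul_sub, Matrix.mul_sub, q1, one_mul,
      one_mul, Matrix.mul_assoc m Q⁻¹ Q, q2, Matrix.mul_one]
    abel
  have e4 : m⁻¹ * (m * Q⁻¹ * m - m) * m⁻¹ = Q⁻¹ - m⁻¹ := by
    rw [Matrix.mul_sub, Matrix.sub_mul, m2, one_mul]
    congr 1
    calc m⁻¹ * (m * Q⁻¹ * m) * m⁻¹ = (m⁻¹ * m) * Q⁻¹ * (m * m⁻¹) := by
          simp only [Matrix.mul_assoc]
      _ = Q⁻¹ := by rw [m1, m2, Matrix.one_mul, Matrix.mul_one]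
  rwa [e1, e4] at hY

theorem contInv {n : ℕ} {T : Set (Cn n)} {A : Cn n → Matrix (Fin n) (Fin n) ℂ}
    (hA : ContinuousOn A T) (h0 : ∀ x ∈ T, (A x).PosDef) : ContinuousOn (fun x => (A x)⁻¹) T := by
  have h1 : ContinuousOn (fun x => (A x).det⁻¹ • (A x).adjugate) T := by
    refine ContinuousOn.smul (ContinuousOn.inv₀ ?_ fun x hx => (h0 x hx).det_pos.ne') ?_
    · exact continuous_id.matrix_det.comp_continuousOn hA
    · exact continuous_id.matrix_adjugate.comp_continuousOn hA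
  refine h1.congr fun x _ => ?_
  show (A x)⁻¹ = _
  rw [Matrix.inv_def, Ring.inverse_eq_inv']

theorem contTr {n : ℕ} {T : Set (Cn n)} {A : Cn n → Matrix (Fin n) (Fin n) ℂ}
    (hA : ContinuousOn A T) : ContinuousOn (fun x => (Matrix.trace (A x)).re) T :=
  Complex.continuous_re.comp_continuousOn (continuous_id.matrix_trace.comp_continuousOn hA)

/-- The choice of `s`. -/
theorem chooseS (k : ℕ) {δ : ℝ} (h0 : 0 < δ) (h1 : δ ≤ 1) :
    ∃ s : ℝ, 0 < s ∧ (1 + s) ^ k + 1 ≤ δ ^ (k + 1) * s ^ (k + 1) := by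
  set s : ℝ := 2 ^ (k + 1) / δ ^ (k + 1) with hs
  have hδ : δ ^ (k + 1) ≤ 1 := pow_le_one₀ h0.le h1
  have hδ0 : 0 < δ ^ (k + 1) := pow_pos h0 _
  have h2 : (1 : ℝ) ≤ 2 ^ (k + 1) := one_le_pow₀ (by norm_num)
  have h3 : 1 ≤ s := by
    rw [hs, le_div_iff₀ hδ0]
    linarith
  refine ⟨s, by linarith, ?_⟩
  have h4 : δ ^ (k + 1) * s = 2 ^ (k + 1) := by
    rw [hs]
    field_simp
  have h5 : (1 + s) ^ k ≤ (2 * s) ^ k := pow_le_pow_left₀ (by linarith) (by linarith) _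
  have h6 : (1 : ℝ) ≤ s ^ k := one_le_pow₀ h3
  have h7 : (1 : ℝ) ≤ 2 ^ k := one_le_pow₀ (by norm_num)
  have h8 : (1 : ℝ) ≤ 2 ^ k * s ^ k := by nlinarith
  calc (1 + s) ^ k + 1 ≤ 2 ^ k * s ^ k + 2 ^ k * s ^ k := by rw [mul_pow] at h5; linarith
    _ = 2 ^ (k + 1) * s ^ k := by ring
    _ = δ ^ (k + 1) * s ^ (k + 1) := by rw [← h4]; ring

/-- One step. -/
theorem step (hDT : S_DETI.{u}) (hGUB : S_GUB.{u}) (hRHO : S_RHOI.{u}) (hGRB : S_GRBC)
    (hTRI : Pool.Agent.Helper95.HS.S_TRI.{u}) (hLDI : S_LDI) (hGDB : S_GDB.{u})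
    (hINV : S_INVG.{u}) (hLAG : S_LAG) (hGTR : S_GTR.{u}) {n : ℕ} {T : Set (Cn n)} {G : Type u}
    [Group G] {R : G → Cn n → Cn n → Prop} {H h : Cn n → Matrix (Fin n) (Fin n) ℂ}
    (hD : GDat T R H h) {c C : ℝ} (hC : Cmp c C T H h) {κ : Cn n → ℝ} (hκ : IsPUE T R κ)
    (hex : ∀ ε : ℝ, 0 < ε → ∃ Q, TKE T R H ε Q) {k : ℕ} {p : Polynomial ℝ} (hkn : k ≤ n)
    (hp : 0 < p.eval 0) (hV : ∀ s : ℝ, VolP T κ H s = s ^ k * p.eval s) {ν : ℝ} (hν0 : 0 < ν)
    (hν1 : ν ≤ 1) :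
    ∃ (ε τ : ℝ) (Q : Cn n → Matrix (Fin n) (Fin n) ℂ), 0 < ε ∧ ε ≤ ν ∧ 0 < τ ∧
      TKE T R H ε Q ∧
      (0 ≤ avE T κ Q (fun x => (Matrix.trace (Sqd (YS τ h Q x))).re) ∧
        avE T κ Q (fun x => (Matrix.trace (Sqd (YS τ h Q x))).re) ≤
          (n + 1) * (1 + C * n + 4 * n / c) * ν) ∧
      (0 ≤ avE T κ Q (fun x => ((Matrix.trace (YS τ h Q x)).re - k) ^ 2) ∧
        avE T κ Q (fun x => ((Matrix.trace (YS τ h Q x)).re - k) ^ 2) ≤
          (n + 1) * (1 + C * n + 4 * n / c) * ν) ∧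
      (0 ≤ avE T κ Q (Er1 τ h Q) ∧
        avE T κ Q (Er1 τ h Q) ≤ (n + 1) * (1 + C * n + 4 * n / c) * ν) ∧
      (0 ≤ avE T κ Q (Er2 τ h Q) ∧
        avE T κ Q (Er2 τ h Q) ≤ (n + 1) * (1 + C * n + 4 * n / c) * ν) ∧
      (0 ≤ avE T κ Q (fun x => (Matrix.trace (rho h x * (h x)⁻¹ * YS τ h Q x)).re) ∧
        avE T κ Q (fun x => (Matrix.trace (rho h x * (h x)⁻¹ * YS τ h Q x)).re) ≤
          (n + 1) * (1 + C * n + 4 * n / c) * ν) := by
  have hH := hD.ket
  have hT : IsOpen T := hH.et.isOpen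
  obtain ⟨hc0, hC0, hCm⟩ := hC
  have hn0 : (0 : ℝ) ≤ n := Nat.cast_nonneg n
  -- the constants
  obtain ⟨s, hs0, hs1⟩ := chooseS k (δ := ν ^ 2) (by positivity) (pow_le_one₀ hν0.le hν1)
  obtain ⟨ε₀, hε₀, hgt⟩ := hGTR T R H hH κ hκ hex k p hp hV (n * C / c)
    (fun ε Q hε hQ x hx => (hGUB T R H h hD c C ⟨hc0, hC0, hCm⟩ ε Q hε hQ x hx).2) ν hν0 s hs0.le
  set ε : ℝ := min ε₀ (ν ^ 2) with hεd
  have hε0 : 0 < ε := lt_min hε₀ (by positivity)
  have hε1 : ε ≤ ν ^ 2 := min_le_right _ _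
  obtain ⟨Q, hQ⟩ := hex ε hε0
  obtain ⟨hDp, htB, hdB⟩ := hgt ε Q hε0 (min_le_left _ _) hQ
  set τ : ℝ := ε / ν with hτd
  have hτ0 : 0 < τ := div_pos hε0 hν0
  have hτ1 : τ ≤ ν := by
    rw [hτd, div_le_iff₀ hν0]
    linarith [hε1, pow_two ν]
  have hετ : ε / τ = ν := by
    rw [hτd]
    field_simp
  have hεν : ε ≤ ν := by nlinarith
  refine ⟨ε, τ, Q, hε0, hεν, hτ0, hQ, ?_⟩
  -- the average data
  obtain ⟨d1, d2, d3, -, -, -⟩ := hDT T R Q hQ.ket
  have hA : AvD T κ Q := ⟨hT, hκ.test, hκ.nonneg, d2.continuousOn, fun x hx => (d1 x hx).2.1, hDp⟩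
  have hHer := hD.her
  have hQher : HerT T R Q := ⟨hQ.ket.posDef, hQ.ket.smooth, hQ.ket.inv⟩
  obtain ⟨i1, i2, i3, -, i5, i6, -, i8⟩ := hINV T R hH.et h Q τ hτ0 hHer hQher
  obtain ⟨r1, -, -, -, -⟩ := hRHO T R h hH.et hHer
  obtain ⟨r6, r7⟩ := (hRHO T R Q hH.et hQher).2.2.2.2 h hHer
  obtain ⟨-, g1⟩ := hGRB T hT h hHer.posDef hHer.smooth hD.gsn
  obtain ⟨-, t2⟩ := hTRI T R Q hQ.ket
  have hchf : CHF Q T := ⟨hQ.ket.smooth, fun x hx => (hQ.ket.posDef x hx).isHermitian,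
    hQ.ket.closed⟩
  have hld := hLDI T hT Q h (fun x => (ε : ℂ) • H x) τ hτ0 hchf hQ.ket.posDef
    (fun x hx => hQ.eq x hx) hHer.smooth hHer.posDef
  -- continuity
  have cH : ContinuousOn H T := contM fun i j => (hH.smooth i j).continuousOn
  have ch : ContinuousOn h T := contM fun i j => (hHer.smooth i j).continuousOn
  have cQ : ContinuousOn Q T := contM fun i j => (hQ.ket.smooth i j).continuousOn
  have cm : ContinuousOn (mS τ h Q) T := contM fun i j => (i1.smooth i j).continuousOn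
  have cmi : ContinuousOn (fun x => (mS τ h Q x)⁻¹) T := contInv cm i1.posDef
  have chi : ContinuousOn (fun x => (h x)⁻¹) T := contInv ch hHer.posDef
  have cQi : ContinuousOn (fun x => (Q x)⁻¹) T := contInv cQ hQ.ket.posDef
  have cY : ContinuousOn (YS τ h Q) T := contM fun i j => (i2 i j).continuousOn
  have cθ : ContinuousOn (rho h) T := contM fun i j => (r1.smooth i j).continuousOn
  have cB : ContinuousOn (Bep ε H Q) T := contB hH.smooth d3 ε
  -- the functions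
  set Y : Cn n → ℝ := fun x => (Matrix.trace (YS τ h Q x)).re with hY
  set S : Cn n → ℝ := fun x => (Matrix.trace (Sqd (YS τ h Q x))).re with hS
  set V : Cn n → ℝ := fun x => ((Matrix.trace (YS τ h Q x)).re - k) ^ 2 with hVd
  set B : Cn n → ℝ := fun x => (Matrix.trace (Bep ε H Q x)).re with hB
  set E : Cn n → ℝ := fun x => (1 + (s : ℂ) • Bep ε H Q x).det.re with hE
  set g : Cn n → ℝ := fun x => (Matrix.trace (((ε : ℂ) • H x) * (mS τ h Q x)⁻¹)).re with hg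
  have fY : ContinuousOn Y T := contTr cY
  have cYY : ContinuousOn (fun x => YS τ h Q x * YS τ h Q x - YS τ h Q x) T :=
    (contMul cY cY).sub cY
  have fS : ContinuousOn S T := contTr (contMul cYY cYY)
  have fV : ContinuousOn V T := (fY.sub continuousOn_const).pow 2
  have fB : ContinuousOn B T := contTr cB
  have fE : ContinuousOn E T :=
    Complex.continuous_re.comp_continuousOn (continuous_id.matrix_det.comp_continuousOn
      (continuousOn_const.add (cB.const_smul (s : ℂ))))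
  have fg : ContinuousOn g T := contTr (contMul (cH.const_smul (ε : ℂ)) cmi)
  -- the pointwise inequalities
  set w : ℝ := τ / (ε * c) * n with hw
  set w' : ℝ := ((ν ^ 2) ^ k * s ^ (k + 1))⁻¹ with hw'
  have hrd : ∀ a : ℝ, τ / (ε * c) * (n * (ν ^ 2 + a / ((ν ^ 2) ^ k * s ^ (k + 1)))) =
      w * ν ^ 2 + (w * w') * a := by
    intro a
    rw [hw, div_eq_mul_inv a, ← hw']
    ring
  have hpt : ∀ x ∈ T, (0 ≤ Y x ∧ Y x ≤ n ∧ 0 ≤ S x ∧ 0 ≤ g x ∧ g x ≤ C * n * ν) ∧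
      Y x ≤ k + (w * ν ^ 2 + (w * w') * E x) ∧
      S x ≤ k - Y x + 2 * (w * ν ^ 2 + (w * w') * E x) ∧
      V x ≤ n * (k - Y x + 2 * (w * ν ^ 2 + (w * w') * E x)) := by
    intro x hx
    obtain ⟨a1, a2⟩ := hLAG k (H x) (h x) (Q x) (Bep ε H Q x) (YS τ h Q x) c C ε τ hkn
      (hH.posDef x hx) (hHer.posDef x hx) (hQ.ket.posDef x hx) hc0 hC0 hε0 hτ0 (hCm x hx).1
      (hCm x hx).2 rfl rfl
    rw [hετ] at a1
    have a3 := a2 (ν ^ 2) s (by positivity) hs0 (w * ν ^ 2 + (w * w') * E x) (hrd (E x)).symm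
    exact ⟨a1, a3⟩
  -- the averages
  have hwpos : 0 ≤ w * w' := by positivity
  have hEr : avE T κ Q (fun x => w * ν ^ 2 + (w * w') * E x) ≤ 2 * n / c * ν := by
    have f1 : ContinuousOn (fun x => (w * w') * E x) T := continuousOn_const.mul fE
    rw [hA.add continuousOn_const f1, hA.const, AvD.smul]
    have hEE : avE T κ Q E ≤ (ν ^ 2) ^ (k + 1) * s ^ (k + 1) := by
      have : avE T κ Q E ≤ (1 + s) ^ k + ν := hdB
      linarith
    have e1 : (w * w') * avE T κ Q E ≤ (w * w') * ((ν ^ 2) ^ (k + 1) * s ^ (k + 1)) :=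
      mul_le_mul_of_nonneg_left hEE hwpos
    have e2 : w' * ((ν ^ 2) ^ (k + 1) * s ^ (k + 1)) = ν ^ 2 := by
      have z0 : (ν ^ 2) ^ (k + 1) * s ^ (k + 1) = ((ν ^ 2) ^ k * s ^ (k + 1)) * ν ^ 2 := by ring
      have z2 : (ν ^ 2) ^ k * s ^ (k + 1) ≠ 0 := by positivity
      rw [hw', z0, ← mul_assoc, inv_mul_cancel₀ z2, one_mul]
    have e3 : w * ν ^ 2 = n / c * ν := by
      have z1 : ε / ν / (ε * c) = 1 / (ν * c) := by
        rw [div_div, div_eq_div_iff (by positivity) (by positivity)]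
        ring
      rw [hw, hτd, z1]
      field_simp
    calc w * ν ^ 2 + w * w' * avE T κ Q E ≤
          w * ν ^ 2 + w * (w' * ((ν ^ 2) ^ (k + 1) * s ^ (k + 1))) := by
            rw [← mul_assoc w w']
            linarith
      _ = 2 * n / c * ν := by
            rw [e2, e3]
            ring
  set r : Cn n → ℝ := fun x => w * ν ^ 2 + (w * w') * E x with hr
  have fr : ContinuousOn r T := continuousOn_const.add (continuousOn_const.mul fE)
  have f2r : ContinuousOn (fun x => 2 * r x) T := continuousOn_const.mul fr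
  have fmY : ContinuousOn (fun x => (-1) * Y x) T := continuousOn_const.mul fY
  have fmg : ContinuousOn (fun x => (-1) * g x) T := continuousOn_const.mul fg
  have hk0 : (0 : ℝ) ≤ k := Nat.cast_nonneg k
  -- E[Y] ≤ k + E[r]
  have hEY : avE T κ Q Y ≤ k + 2 * n / c * ν := by
    have e1 := hA.mono fY (continuousOn_const.add fr) fun x hx => (hpt x hx).2.1
    have e2 := hA.add (f := fun _ => (k : ℝ)) continuousOn_const fr
    rw [hA.const] at e2
    have e3 : avE T κ Q Y ≤ avE T κ Q (fun x => (k : ℝ) + r x) := e1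
    linarith
  have hEg0 : 0 ≤ avE T κ Q g := hA.nonneg fg fun x hx => (hpt x hx).1.2.2.2.1
  have hEg : avE T κ Q g ≤ C * n * ν := by
    have e1 := hA.mono fg (continuousOn_const (c := C * n * ν)) fun x hx => (hpt x hx).1.2.2.2.2
    rwa [hA.const] at e1
  -- the identity
  have hER1 : ∀ x ∈ T, 0 ≤ Er1 τ h Q x := by
    intro x hx
    obtain ⟨K, -, hK⟩ := hGDB T R h hHer {x} (singleton_subset_iff.2 hx) isCompact_singleton
    exact (hK τ Q hτ0 hQ.ket x rfl).2.1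
  have hER2 : ∀ x ∈ T, 0 ≤ Er2 τ h Q x := by
    intro x hx
    have e1 := (g1 x hx).1 (mS τ h Q x)⁻¹ (Q x)⁻¹ (i1.posDef x hx).inv.posSemidef
      (hQ.ket.posDef x hx).inv.posSemidef
    unfold Er2
    nlinarith
  have hid : avE T κ Q (Er1 τ h Q) + avE T κ Q (Er2 τ h Q) =
      avE T κ Q Y - avE T κ Q B + avE T κ Q g := by
    have hL : ∀ x ∈ T, (trL Q (fun y => ld (mS τ h Q) y - ld Q y) x).re =
        ((-1) * Y x + B x) + ((-1) * g x + (Er1 τ h Q x + Er2 τ h Q x)) := by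
      intro x hx
      obtain ⟨-, -, e1⟩ := hld x hx
      rw [e1]
      have e2 : B x = (Matrix.trace ((ε : ℂ) • H x * (Q x)⁻¹)).re := by
        rw [hB]
        show (Matrix.trace ((ε : ℂ) • (H x * (Q x)⁻¹))).re = _
        rw [Matrix.smul_mul]
      rw [e2, hY, hg]
      ring
    have e0 : avE T κ Q (fun x => (trL Q (fun y => ld (mS τ h Q) y - ld Q y) x).re) = 0 := by
      unfold avE itg
      rw [t2 κ hκ _ i8, zero_div]
    have e1 := hA.congr hL
    have fE12 : ContinuousOn (fun x => Er1 τ h Q x + Er2 τ h Q x) T := i5.add i6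
    have fgE : ContinuousOn (fun x => (-1) * g x + (Er1 τ h Q x + Er2 τ h Q x)) T :=
      fmg.add fE12
    have fYB : ContinuousOn (fun x => (-1) * Y x + B x) T := fmY.add fB
    rw [e0, hA.add fYB fgE, hA.add fmY fB, hA.add fmg fE12, hA.add i5 i6, AvD.smul, AvD.smul] at e1
    linarith
  have hE1 : 0 ≤ avE T κ Q (Er1 τ h Q) := hA.nonneg i5 hER1
  have hE2 : 0 ≤ avE T κ Q (Er2 τ h Q) := hA.nonneg i6 hER2
  obtain ⟨hB1, hB2⟩ := abs_le.1 htB
  have hB1 : -ν ≤ avE T κ Q B - k := hB1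
  have hcn : (0 : ℝ) ≤ n / c := by positivity
  have hCn : 0 ≤ C * n := by positivity
  set M : ℝ := 1 + C * n + 4 * n / c with hM
  have hM4 : 4 * (n : ℝ) / c = 4 * (n / c) := by ring
  have hM2 : 2 * (n : ℝ) / c = 2 * (n / c) := by ring
  have hM0 : 1 ≤ M := by rw [hM, hM4]; linarith
  have hMn : M * ν ≤ (n + 1) * M * ν := by
    have : 0 ≤ (n : ℝ) * (M * ν) := by positivity
    nlinarith
  have hkY : k - avE T κ Q Y ≤ ν + C * n * ν := by linarith
  have hkr : k - avE T κ Q Y + 2 * avE T κ Q r ≤ M * ν := by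
    rw [hM, hM4]
    rw [hM2] at hEr
    nlinarith
  have fkY : ContinuousOn (fun x => (k : ℝ) + (-1) * Y x) T := continuousOn_const.add fmY
  have hav : avE T κ Q (fun x => ((k : ℝ) + (-1) * Y x) + 2 * r x) =
      k - avE T κ Q Y + 2 * avE T κ Q r := by
    rw [hA.add fkY f2r, hA.add continuousOn_const fmY, hA.const, AvD.smul, AvD.smul]
    ring
  refine ⟨⟨hA.nonneg fS fun x hx => (hpt x hx).1.2.2.1, ?_⟩,
    ⟨hA.nonneg fV fun x hx => sq_nonneg _, ?_⟩, ⟨hE1, ?_⟩, ⟨hE2, ?_⟩, ?_⟩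
  · refine le_trans ?_ hMn
    refine le_trans ?_ hkr
    rw [← hav]
    refine hA.mono fS (fkY.add f2r) fun x hx => ?_
    have := (hpt x hx).2.2.1
    show S x ≤ ((k : ℝ) + (-1) * Y x) + 2 * r x
    linarith
  · have e1 : avE T κ Q V ≤ n * (M * ν) := by
      have e2 : avE T κ Q V ≤ avE T κ Q (fun x => (n : ℝ) * (((k : ℝ) + (-1) * Y x) + 2 * r x)) := by
        refine hA.mono fV (continuousOn_const.mul (fkY.add f2r)) fun x hx => ?_
        have := (hpt x hx).2.2.2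
        show V x ≤ (n : ℝ) * (((k : ℝ) + (-1) * Y x) + 2 * r x)
        have e3 : (k : ℝ) + (-1) * Y x + 2 * r x = k - Y x + 2 * r x := by ring
        rw [e3]
        exact this
      rw [AvD.smul, hav] at e2
      exact e2.trans (mul_le_mul_of_nonneg_left hkr hn0)
    have e4 : 0 ≤ M * ν := by positivity
    nlinarith
  · have e1 : avE T κ Q (Er1 τ h Q) ≤ M * ν := by
      rw [hM, hM4]
      rw [hM2] at hEY
      have : 0 ≤ n / c * ν := by positivity
      nlinarith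
    exact e1.trans hMn
  · have e1 : avE T κ Q (Er2 τ h Q) ≤ M * ν := by
      rw [hM, hM4]
      rw [hM2] at hEY
      have : 0 ≤ n / c * ν := by positivity
      nlinarith
    exact e1.trans hMn
  · -- the last item
    set F : Cn n → ℝ := fun x => (Matrix.trace (rho h x * (h x)⁻¹ * YS τ h Q x)).re with hF
    have fF : ContinuousOn F T := contTr (contMul (contMul cθ chi) cY)
    have hFe : ∀ x ∈ T, F x = τ * (Matrix.trace (rho h x * (mS τ h Q x)⁻¹)).re := by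
      intro x hx
      have e1 : (h x)⁻¹ * h x = 1 := Matrix.nonsing_inv_mul _ (detU (hHer.posDef x hx))
      have e2 : rho h x * (h x)⁻¹ * YS τ h Q x = (τ : ℂ) • (rho h x * (mS τ h Q x)⁻¹) := by
        show rho h x * (h x)⁻¹ * ((τ : ℂ) • (h x * (mS τ h Q x)⁻¹)) = _
        rw [Matrix.mul_smul, Matrix.mul_assoc, ← Matrix.mul_assoc (h x)⁻¹, e1, Matrix.one_mul]
      rw [hF]
      show (Matrix.trace (rho h x * (h x)⁻¹ * YS τ h Q x)).re = _
      rw [e2, Matrix.trace_smul, smul_eq_mul, Complex.re_ofReal_mul]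
    have hF0 : ∀ x ∈ T, 0 ≤ F x := by
      intro x hx
      rw [hFe x hx]
      exact mul_nonneg hτ0.le (trPP (g1 x hx).2.2 (i1.posDef x hx).inv.posSemidef)
    have hF1 : ∀ x ∈ T, F x ≤ τ * (Matrix.trace (rho h x * (Q x)⁻¹)).re := by
      intro x hx
      rw [hFe x hx]
      refine mul_le_mul_of_nonneg_left ?_ hτ0.le
      have e1 := trPP (g1 x hx).2.2 (invLe (hQ.ket.posDef x hx) (hHer.posDef x hx) hτ0)
      rw [Matrix.mul_sub, Matrix.trace_sub, Complex.sub_re] at e1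
      have e2 : (Matrix.trace (rho h x * (mS τ h Q x)⁻¹)).re =
          (Matrix.trace (rho h x * (Q x + (τ : ℂ) • h x)⁻¹)).re := rfl
      linarith
    have fθ : ContinuousOn (fun x => (Matrix.trace (rho h x * (Q x)⁻¹)).re) T :=
      contTr (contMul cθ cQi)
    have hθe : ∀ x ∈ T, (trL Q (fun y => ld h y - ld Q y) x).re =
        (Matrix.trace (rho h x * (Q x)⁻¹)).re + (-(n : ℝ) + B x) := by
      intro x hx
      have e1 := r7 x hx
      have e2 := hQ.eq x hx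
      have e3 : LM (fun y => ld h y - ld Q y) x = rho h x - (Q x - (ε : ℂ) • H x) := by
        rw [e1, e2]
        abel
      have e4 : Q x * (Q x)⁻¹ = 1 := Matrix.mul_nonsing_inv _ (detU (hQ.ket.posDef x hx))
      unfold trL
      rw [Matrix.trace_mul_comm, e3, Matrix.sub_mul, Matrix.sub_mul, e4, Matrix.smul_mul,
        Matrix.trace_sub, Matrix.trace_sub, Matrix.trace_one, Fintype.card_fin]
      rw [hB]
      show _ = _ + (-(n : ℝ) + (Matrix.trace ((ε : ℂ) • (H x * (Q x)⁻¹))).re)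
      simp only [Complex.sub_re, Complex.natCast_re]
      ring
    have hθE : avE T κ Q (fun x => (Matrix.trace (rho h x * (Q x)⁻¹)).re) = n - avE T κ Q B := by
      have e0 : avE T κ Q (fun x => (trL Q (fun y => ld h y - ld Q y) x).re) = 0 := by
        unfold avE itg
        rw [t2 κ hκ _ r6, zero_div]
      have e1 := hA.congr hθe
      have f1 : ContinuousOn (fun x => -(n : ℝ) + B x) T := continuousOn_const.add fB
      rw [e0, hA.add fθ f1, hA.add continuousOn_const fB, hA.const] at e1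
      linarith
    refine ⟨hA.nonneg fF hF0, ?_⟩
    have e1 : avE T κ Q F ≤ avE T κ Q (fun x => τ * (Matrix.trace (rho h x * (Q x)⁻¹)).re) :=
      hA.mono fF (continuousOn_const.mul fθ) hF1
    rw [AvD.smul, hθE] at e1
    have e2 : (n : ℝ) - avE T κ Q B ≤ n + 1 := by linarith
    have e3 : τ * (n - avE T κ Q B) ≤ ν * (n + 1) := by
      calc τ * (n - avE T κ Q B) ≤ τ * (n + 1) := mul_le_mul_of_nonneg_left e2 hτ0.le
        _ ≤ ν * (n + 1) := mul_le_mul_of_nonneg_right hτ1 (by positivity)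
    refine e1.trans (e3.trans ?_)
    have e4 : 0 ≤ (n + 1 : ℝ) * ν := by positivity
    have e5 : (n + 1 : ℝ) * ν ≤ (n + 1) * ν * M := le_mul_of_one_le_right e4 hM0
    calc ν * (n + 1) = (n + 1 : ℝ) * ν := by ring
      _ ≤ (n + 1) * ν * M := e5
      _ = (n + 1) * M * ν := by ring

/-- GCON. -/
theorem gcon (hDT : S_DETI.{u}) (hCM : S_CMPG.{u}) (hGUB : S_GUB.{u}) (hRHO : S_RHOI.{u})
    (hGRB : S_GRBC) (hTRI : Pool.Agent.Helper95.HS.S_TRI.{u}) (hLDI : S_LDI) (hGDB : S_GDB.{u})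
    (hINV : S_INVG.{u}) (hLAG : S_LAG) (hGTR : S_GTR.{u}) : S_GCON.{u} := by
  intro n T G _ R H h hD κ hκ hex k p hkn hp hV
  obtain ⟨c, C, hC⟩ := hCM T R H h hD.ket hD.her
  set K : ℝ := (n + 1) * (1 + C * n + 4 * n / c) with hK
  have hst : ∀ j : ℕ, _ := fun j => step hDT hGUB hRHO hGRB hTRI hLDI hGDB hINV hLAG hGTR hD hC hκ
    hex hkn hp hV (ν := 1 / ((j : ℝ) + 1)) (by positivity)
    (by rw [div_le_one (by positivity)]; have := Nat.cast_nonneg (α := ℝ) j; linarith)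
  choose ε τ Q h1 h2 h3 h4 h5 h6 h7 h8 h9 using hst
  have hl : Tendsto (fun j : ℕ => 1 / ((j : ℝ) + 1)) atTop (𝓝 0) :=
    tendsto_one_div_add_atTop_nhds_zero_nat
  have hlK : Tendsto (fun j : ℕ => K * (1 / ((j : ℝ) + 1))) atTop (𝓝 0) := by
    have := hl.const_mul K
    rwa [mul_zero] at this
  have hle1 : ∀ j : ℕ, 1 / ((j : ℝ) + 1) ≤ 1 := fun j => by
    rw [div_le_one (by positivity)]
    have := Nat.cast_nonneg (α := ℝ) j
    linarith
  refine ⟨ε, τ, Q, ⟨fun j => ⟨h1 j, (h2 j).trans (hle1 j)⟩, ?_, h3, h4, ?_, ?_, ?_, ?_, ?_⟩⟩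
  · exact squeeze_zero (fun j => (h1 j).le) h2 hl
  · exact squeeze_zero (fun j => (h5 j).1) (fun j => (h5 j).2) hlK
  · exact squeeze_zero (fun j => (h6 j).1) (fun j => (h6 j).2) hlK
  · exact squeeze_zero (fun j => (h7 j).1) (fun j => (h7 j).2) hlK
  · exact squeeze_zero (fun j => (h8 j).1) (fun j => (h8 j).2) hlK
  · exact squeeze_zero (fun j => (h9 j).1) (fun j => (h9 j).2) hlK

end Pool.Agent.Helper64.GS
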